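import Pool.Agent.N498.FL.Asc
import Pool.Agent.N102.FL.LFin
import Pool.Agent.W418.LU2.Ded

/-!
Ascent of log uniformization to relative schön systems over systems of linear relations with
Frobenius levels. The proof of `asc2` follows `Pool.Agent.N498.FL.t_asc` of the starting files (with
monomial denominators in `A` instead of denominators in the base ring).
-/

set_option autoImplicit false
set_option linter.unusedVariables false
set_option linter.unusedSectionVars false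

universe u

namespace Run7.h277.FL

open IsLocalRing Pool.Agent.W418.LU2 Pool.Agent.N102.FL Pool.Agent.N498.FL

/-- The ascent of log uniformization. The denominators of the coordinates `y θ` are monomials in
`A`. -/
theorem asc2 (hcut : S_CUT.{u}) {E K : Type u} [Field E] [Field K] [Algebra E K]
    (V : ValuationSubring K) (R : Subring E) [IsNoetherianRing R]
    (hfr : ∀ z : E, ∃ a ∈ R, ∃ b ∈ R, b ≠ 0 ∧ z = a * b⁻¹)
    (hRV : ∀ a ∈ R, algebraMap E K a ∈ V) (hLU : LogUnif (V.comap (algebraMap E K)) R)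
    {Θ : Type} [Fintype Θ] {y : Θ → K} (hy : ∀ θ, y θ ≠ 0)
    (hyfr : ∀ z : K, ∃ a b : MvPolynomial Θ E, ph (E := E) y b ≠ 0 ∧
      z * ph (E := E) y b = ph (E := E) y a)
    (𝒮 : Sys E Θ) (hOk : OkJ 𝒮 y V) (hc0 : ∀ k i, 𝒮.c k i ≠ 0)
    (htr : Algebra.trdeg E K + (Fintype.card 𝒮.κ : Cardinal.{u}) = Fintype.card Θ)
    (A : Subring K) (Gen : Set K) (hGenf : Gen.Finite) (hGen : ∀ z ∈ Gen, Mon E y z)
    (hA : A = Subring.closure ((R.map (algebraMap E K) : Set K) ∪ Gen)) (hAV : A ≤ V.toSubring)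
    (hbθ : ∀ θ, ∃ b ∈ A, Mon E y b ∧ b * y θ ∈ A)
    (D I₀ : Ideal A) (hD : MonIdeal E y D) (hI₀ : MonIdeal E y I₀) :
    ∃ I₁ : Ideal A, MonIdeal E y I₁ ∧ LogDesing V A D (I₀ * I₁) := by
  classical
  obtain ⟨hD0, SD, hSDf, hSDm, hSD⟩ := hD
  obtain ⟨hI0, SI, hSIf, hSIm, hSI⟩ := hI₀
  obtain ⟨d₀, hd₀S, hd₀0, hd₀⟩ := exists_gen V hAV hSDf (by rw [← hSD]; exact hD0)
  obtain ⟨f₀, hf₀S, hf₀0, hf₀⟩ := exists_gen V hAV hSIf (by rw [← hSI]; exact hI0)
  rw [← hSD] at hd₀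
  rw [← hSI] at hf₀
  have hd₀0' : (d₀ : K) ≠ 0 := fun h => hd₀0 (Subtype.ext h)
  have hf₀0' : (f₀ : K) ≠ 0 := fun h => hf₀0 (Subtype.ext h)
  have hd₀m := hSDm d₀ hd₀S hd₀0'
  have hf₀m := hSIm f₀ hf₀S hf₀0'
  have hRA : ∀ a ∈ R, algebraMap E K a ∈ A := by
    intro a ha
    rw [hA]
    exact Subring.subset_closure (Or.inl ⟨a, ha, rfl⟩)
  have hGenA : ∀ z ∈ Gen, z ∈ A := by
    intro z hz
    rw [hA]
    exact Subring.subset_closure (Or.inr hz)
  -- the monomials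
  choose bθ hbR hb0 hbA using hbθ
  let Z : Set K := Gen ∪ ((fun a : A => (a : K) / (d₀ : K)) '' {a | a ∈ SD ∧ a ≠ 0}) ∪
    ((fun a : A => (a : K) / (f₀ : K)) '' {a | a ∈ SI ∧ a ≠ 0}) ∪
    ({(d₀ : K), (f₀ : K)} ∪ Set.range bθ)
  have hZf : Z.Finite := by
    refine ((hGenf.union ?_).union ?_).union ((Set.toFinite _).union (Set.finite_range _))
    · exact (hSDf.subset fun a ha => ha.1).image _
    · exact (hSIf.subset fun a ha => ha.1).image _
  have hZm : ∀ z ∈ Z, Mon E y z := by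
    rintro z (((hz | ⟨a, ha, rfl⟩) | ⟨a, ha, rfl⟩) | hz | ⟨θ, rfl⟩)
    · exact hGen z hz
    · change Mon E y ((a : K) / (d₀ : K))
      rw [div_eq_mul_inv]
      exact mon_mul (hSDm a ha.1 fun h => ha.2 (Subtype.ext h)) hy (mon_inv hd₀m)
    · change Mon E y ((a : K) / (f₀ : K))
      rw [div_eq_mul_inv]
      exact mon_mul (hSIm a ha.1 fun h => ha.2 (Subtype.ext h)) hy (mon_inv hf₀m)
    · rcases hz with rfl | hz
      · exact hd₀m
      · rw [Set.mem_singleton_iff.1 hz]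
        exact hf₀m
    · exact hb0 θ
  have hZm' : ∀ z ∈ Z, ∃ (a : E) (m : Θ → ℤ), a ≠ 0 ∧ z = algebraMap E K a * mo y m := hZm
  choose! ez mz hez0 hmz using hZm'
  let Hc : Set E := Set.range fun q : (k : 𝒮.κ) × 𝒮.ι k => 𝒮.c q.1 q.2
  have hHcf : Hc.Finite := Set.finite_range _
  have hHc0 : ∀ h ∈ Hc, h ≠ 0 := by
    rintro _ ⟨q, rfl⟩
    exact hc0 q.1 q.2
  -- the base
  have hRW : R ≤ (V.comap (algebraMap E K)).toSubring := fun a ha => hRV a ha
  obtain ⟨Wb, fb, n0, x₀, hWbf, hfbR, hfb0, hWb, hx₀, hreg₀, hfbm, hHm⟩ :=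
    base (V.comap (algebraMap E K)) R hRW hfr hLU (Hc ∪ ez '' Z)
      (hHcf.union (hZf.image _)) (by
        rintro h (hh | ⟨z, hz, rfl⟩)
        · exact hHc0 h hh
        · exact hez0 z hz)
  set C := Subring.closure ((R : Set E) ∪ Wb) with hC
  have hCW : C ≤ (V.comap (algebraMap E K)).toSubring := by
    rw [hC, Subring.closure_le]
    rintro z (hz | hz)
    · exact hRW hz
    · exact (hWb z hz).1
  have hRC : R ≤ C := fun a ha => Subring.subset_closure (Or.inl ha)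
  have hCE : ∀ a : E, ∃ b ∈ C, b ≠ 0 ∧ a * b ∈ C := by
    intro a
    obtain ⟨a', ha', b, hb, hb0, rfl⟩ := hfr a
    refine ⟨b, hRC hb, hb0, ?_⟩
    rw [mul_assoc, inv_mul_cancel₀ hb0, mul_one]
    exact hRC ha'
  -- the construction
  obtain ⟨T, κ, _, x, hTf, hTV, hTm, hreg, hPMalg, hPMy, hGV⟩ :=
    hcut E K Θ y hy V C (Fin n0) x₀ hreg₀ hCW hCE 𝒮 hOk
      (fun k i => hHm _ (Or.inl ⟨⟨k, i⟩, rfl⟩)) hyfr htr
      ((fun z => (ez z, mz z)) '' Z) (hZf.image _) (by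
        rintro _ ⟨z, hz, rfl⟩
        exact hHm _ (Or.inr ⟨z, hz, rfl⟩))
  set B := Subring.closure (C.map (algebraMap E K) ∪ T) with hB
  set P := lo V.toSubring B with hP
  have hBV : B ≤ V.toSubring := by
    rw [hB, Subring.closure_le]
    rintro w (⟨c, hc, rfl⟩ | hw)
    · exact hCW hc
    · exact hTV w hw
  have hBP : B ≤ P := le_lo _ _
  have hCP : ∀ c ∈ C, algebraMap E K c ∈ P := fun c hc =>
    hBP (Subring.subset_closure (Or.inl ⟨c, hc, rfl⟩))
  have hTP : ∀ t ∈ T, t ∈ P := fun t ht => hBP (Subring.subset_closure (Or.inr ht))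
  -- the monomials
  have hZP : ∀ z ∈ Z, z ∈ V → z ∈ P := by
    intro z hz hzV
    have h1 := hGV (ez z, mz z) ⟨z, hz, rfl⟩
    simp only [← hmz z hz] at h1
    exact h1 hzV
  have hZPM : ∀ z ∈ Z, PMon P x z := by
    intro z hz
    rw [hmz z hz]
    exact (hPMalg _ (hHm _ (Or.inr ⟨z, hz, rfl⟩))).mul hreg.ne (PMon.mo hreg.ne hPMy _)
  have hAP : A ≤ P := by
    rw [hA, Subring.closure_le]
    rintro z (⟨a, ha, rfl⟩ | hz)
    · exact hCP _ (hRC ha)
    · exact hZP z (Or.inl (Or.inl (Or.inl hz))) (hAV (hGenA z hz))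
  have hDP : ∀ a ∈ D, (a : K) / (d₀ : K) ∈ P := by
    intro a ha
    rw [hSD] at ha
    induction ha using Submodule.span_induction with
    | mem a ha =>
      by_cases h0 : a = 0
      · rw [h0]; simp
      · refine hZP _ (Or.inl (Or.inl (Or.inr ⟨a, ⟨ha, h0⟩, rfl⟩))) (hd₀ a ?_)
        rw [hSD]
        exact Ideal.subset_span ha
    | zero => simp
    | add a b _ _ ha hb =>
      have h1 : ((a + b : A) : K) / (d₀ : K) = (a : K) / (d₀ : K) + (b : K) / (d₀ : K) :=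
        add_div _ _ _
      rw [h1]
      exact P.add_mem ha hb
    | smul c a _ ha =>
      have h1 : ((c • a : A) : K) / (d₀ : K) = (c : K) * ((a : K) / (d₀ : K)) :=
        mul_div_assoc _ _ _
      rw [h1]
      exact P.mul_mem (hAP c.2) ha
  have hIP : ∀ a ∈ I₀, (a : K) / (f₀ : K) ∈ P := by
    intro a ha
    rw [hSI] at ha
    induction ha using Submodule.span_induction with
    | mem a ha =>
      by_cases h0 : a = 0
      · rw [h0]; simp
      · refine hZP _ (Or.inl (Or.inr ⟨a, ⟨ha, h0⟩, rfl⟩)) (hf₀ a ?_)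
        rw [hSI]
        exact Ideal.subset_span ha
    | zero => simp
    | add a b _ _ ha hb =>
      have h1 : ((a + b : A) : K) / (f₀ : K) = (a : K) / (f₀ : K) + (b : K) / (f₀ : K) :=
        add_div _ _ _
      rw [h1]
      exact P.add_mem ha hb
    | smul c a _ ha =>
      have h1 : ((c • a : A) : K) / (f₀ : K) = (c : K) * ((a : K) / (f₀ : K)) :=
        mul_div_assoc _ _ _
      rw [h1]
      exact P.mul_mem (hAP c.2) ha
  -- the fractions
  let Qm : Set K := {α | α ∈ A ∧ Mon E y α ∧ PMon P x α}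
  have hQmul : ∀ α ∈ Qm, ∀ β ∈ Qm, α * β ∈ Qm := fun α hα β hβ =>
    ⟨A.mul_mem hα.1 hβ.1, mon_mul hα.2.1 hy hβ.2.1, hα.2.2.mul hreg.ne hβ.2.2⟩
  have hQone : (1 : K) ∈ Qm := ⟨A.one_mem, mon_one, PMon.one⟩
  let Fr : Set K := {z | ∃ α ∈ Qm, ∃ β ∈ Qm, z = α * β⁻¹}
  have hFmul : ∀ z ∈ Fr, ∀ w ∈ Fr, z * w ∈ Fr := by
    rintro _ ⟨α, hα, β, hβ, rfl⟩ _ ⟨α', hα', β', hβ', rfl⟩
    refine ⟨α * α', hQmul _ hα _ hα', β * β', hQmul _ hβ _ hβ', ?_⟩
    rw [mul_inv]
    ring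
  have hFinv : ∀ z ∈ Fr, z⁻¹ ∈ Fr := by
    rintro _ ⟨α, hα, β, hβ, rfl⟩
    refine ⟨β, hβ, α, hα, ?_⟩
    rw [mul_inv, inv_inv, mul_comm]
  have hFone : (1 : K) ∈ Fr := ⟨1, hQone, 1, hQone, by simp⟩
  have hFpow : ∀ z ∈ Fr, ∀ n : ℕ, z ^ n ∈ Fr := by
    intro z hz n
    induction n with
    | zero => rw [pow_zero]; exact hFone
    | succ n ih => rw [pow_succ]; exact hFmul _ ih _ hz
  have hFzpow : ∀ z ∈ Fr, ∀ n : ℤ, z ^ n ∈ Fr := by
    intro z hz n
    rcases Int.eq_nat_or_neg n with ⟨n', rfl | rfl⟩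
    · rw [zpow_natCast]; exact hFpow z hz n'
    · rw [zpow_neg, zpow_natCast]; exact hFinv _ (hFpow z hz n')
  have hFmo : ∀ {κ' : Type} [Fintype κ'] (w : κ' → K), (∀ i, w i ∈ Fr) → ∀ m, mo w m ∈ Fr := by
    intro κ' _ w hw m
    unfold mo
    have h1 : ∀ s : Finset κ', ∏ i ∈ s, w i ^ m i ∈ Fr := by
      intro s
      induction s using Finset.induction_on with
      | empty => rw [Finset.prod_empty]; exact hFone
      | insert i s hi ih =>
        rw [Finset.prod_insert hi]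
        exact hFmul _ (hFzpow _ (hw i) _) _ ih
    exact h1 _
  have hFy : ∀ θ, y θ ∈ Fr := by
    intro θ
    have h1 : Mon E y (bθ θ) := hb0 θ
    have h2 : Mon E y (y θ) := mon_coord θ
    have h3 : PMon P x (bθ θ) := hZPM _ (Or.inr (Or.inr ⟨θ, rfl⟩))
    refine ⟨bθ θ * y θ, ⟨hbA θ, mon_mul h1 hy h2, h3.mul hreg.ne (hPMy θ)⟩,
      bθ θ, ⟨hbR θ, h1, h3⟩, ?_⟩
    rw [mul_comm, ← mul_assoc, inv_mul_cancel₀ (mon_ne h1 hy), one_mul]
  have hfbQ : algebraMap E K fb ∈ Qm := ⟨hRA _ hfbR, mon_alg hfb0, hPMalg _ hfbm⟩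
  have hfbpow : ∀ k : ℕ, algebraMap E K (fb ^ k) ∈ Qm := by
    intro k
    induction k with
    | zero => rw [pow_zero, map_one]; exact hQone
    | succ k ih => rw [pow_succ, map_mul]; exact hQmul _ ih _ hfbQ
  have hCfb : ∀ z ∈ C, ∃ k : ℕ, z * fb ^ k ∈ R := by
    intro z hz
    rw [hC] at hz
    induction hz using Subring.closure_induction with
    | mem z hz =>
      rcases hz with hz | hz
      · exact ⟨0, by rw [pow_zero, mul_one]; exact hz⟩
      · exact ⟨1, by rw [pow_one]; exact (hWb z hz).2⟩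
    | zero => exact ⟨0, by rw [zero_mul]; exact R.zero_mem⟩
    | one => exact ⟨0, by rw [pow_zero, mul_one]; exact R.one_mem⟩
    | add a b _ _ ha hb =>
      obtain ⟨k, hk⟩ := ha
      obtain ⟨k', hk'⟩ := hb
      refine ⟨k + k', ?_⟩
      have h1 : (a + b) * fb ^ (k + k') = a * fb ^ k * fb ^ k' + b * fb ^ k' * fb ^ k := by
        rw [pow_add]; ring
      rw [h1]
      exact R.add_mem (R.mul_mem hk (R.pow_mem hfbR _)) (R.mul_mem hk' (R.pow_mem hfbR _))
    | neg a _ ha =>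
      obtain ⟨k, hk⟩ := ha
      exact ⟨k, by rw [neg_mul]; exact R.neg_mem hk⟩
    | mul a b _ _ ha hb =>
      obtain ⟨k, hk⟩ := ha
      obtain ⟨k', hk'⟩ := hb
      refine ⟨k + k', ?_⟩
      have h1 : a * b * fb ^ (k + k') = a * fb ^ k * (b * fb ^ k') := by
        rw [pow_add]; ring
      rw [h1]
      exact R.mul_mem hk hk'
  have hFx : ∀ i, algebraMap E K (x₀ i) ∈ Fr := by
    intro i
    obtain ⟨k, hk⟩ := hCfb _ (hx₀ i)
    have h1 : PMon P x (algebraMap E K (x₀ i)) := hPMalg _ (by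
      have h2 := PMon.of_mo (P := lo (V.comap (algebraMap E K)).toSubring C) (x := x₀)
        (Pi.single i 1)
      rwa [mo_single] at h2)
    refine ⟨algebraMap E K (x₀ i * fb ^ k), ⟨hRA _ hk, mon_alg (mul_ne_zero
      (hreg₀.ne i) (pow_ne_zero _ hfb0)), ?_⟩, algebraMap E K (fb ^ k), hfbpow k, ?_⟩
    · rw [map_mul]
      exact h1.mul hreg.ne (hfbpow k).2.2
    · rw [map_mul, mul_assoc, mul_inv_cancel₀ (mon_ne (hfbpow k).2.1 hy), mul_one]
  have hFT : ∀ t ∈ T, t ∈ Fr := by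
    intro t ht
    obtain ⟨γ, m, rfl⟩ := hTm t ht
    refine hFmul _ ?_ _ (hFmo y hFy m)
    have h1 : algebraMap E K (mo x₀ γ) = mo (fun i => algebraMap E K (x₀ i)) γ := by
      unfold mo
      rw [map_prod]
      exact Finset.prod_congr rfl fun i _ => map_zpow₀ _ _ _
    rw [h1]
    exact hFmo _ hFx γ
  -- the common denominator
  have hden : ∀ S : Finset K, (∀ t ∈ S, t ∈ Fr) → ∃ β ∈ Qm, ∀ t ∈ S, t * β ∈ Qm := by
    intro S
    induction S using Finset.induction_on with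
    | empty => exact fun _ => ⟨1, hQone, fun t ht => absurd ht (Finset.notMem_empty _)⟩
    | insert a S ha ih =>
      intro hS
      obtain ⟨β, hβ, h1⟩ := ih fun t ht => hS t (Finset.mem_insert_of_mem ht)
      obtain ⟨α', hα', β', hβ', h2⟩ := hS a (Finset.mem_insert_self _ _)
      refine ⟨β * β', hQmul _ hβ _ hβ', fun t ht => ?_⟩
      rcases Finset.mem_insert.1 ht with rfl | ht
      · have h3 : t * (β * β') = α' * β := by
          rw [h2]
          have := mon_ne hβ'.2.1 hy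
          field_simp
        rw [h3]
        exact hQmul _ hα' _ hβ
      · rw [← mul_assoc]
        exact hQmul _ (h1 t ht) _ hβ'
  obtain ⟨β₁, hβ₁, hTβ⟩ := hden hTf.toFinset fun t ht => hFT t (hTf.mem_toFinset.1 ht)
  set β := algebraMap E K fb * β₁ with hβdef
  have hβ : β ∈ Qm := hQmul _ hfbQ _ hβ₁
  have hTβ' : ∀ t ∈ T, t * β ∈ Qm := by
    intro t ht
    have h1 : t * β = algebraMap E K fb * (t * β₁) := by rw [hβdef]; ring
    rw [h1]
    exact hQmul _ hfbQ _ (hTβ t (hTf.mem_toFinset.2 ht))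
  have hWβ : ∀ w ∈ Wb, algebraMap E K w * β ∈ A := by
    intro w hw
    have h1 : algebraMap E K w * β = algebraMap E K (w * fb) * β₁ := by
      rw [hβdef, map_mul]; ring
    rw [h1]
    exact A.mul_mem (hRA _ (hWb w hw).2) hβ₁.1
  -- the centre
  let S₁ : Set A := {a | (a : K) = β ∨ (∃ t ∈ T, (a : K) = t * β) ∨
    ∃ w ∈ Wb, (a : K) = algebraMap E K w * β}
  have hS₁f : S₁.Finite := by
    have h1 : ({β} ∪ ((fun t => t * β) '' T) ∪ ((fun w => algebraMap E K w * β) '' Wb) :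
        Set K).Finite :=
      ((Set.finite_singleton _).union (hTf.image _)).union (hWbf.image _)
    refine (h1.preimage (Subtype.val_injective.injOn (s := Set.univ) |>.mono
      (Set.subset_univ _))).subset ?_
    rintro a (h | ⟨t, ht, h⟩ | ⟨w, hw, h⟩)
    · exact Or.inl (Or.inl h)
    · exact Or.inl (Or.inr ⟨t, ht, h.symm⟩)
    · exact Or.inr ⟨w, hw, h.symm⟩
  have hβS : (⟨β, hβ.1⟩ : A) ∈ S₁ := Or.inl rfl
  have hβ0 : β ≠ 0 := mon_ne hβ.2.1 hy
  refine ⟨Ideal.span S₁, ⟨?_, S₁, hS₁f, ?_, rfl⟩, ?_⟩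
  · intro h
    rw [Ideal.span_eq_bot] at h
    exact hβ0 (congrArg Subtype.val (h _ hβS))
  · rintro a (h | ⟨t, ht, h⟩ | ⟨w, hw, h⟩) h0
    · rw [h]; exact hβ.2.1
    · rw [h]; exact (hTβ' t ht).2.1
    · rw [h] at h0 ⊢
      exact mon_mul (mon_alg fun h1 => left_ne_zero_of_mul h0 (by rw [h1, map_zero])) hy hβ.2.1
  have hf₀I : f₀ ∈ I₀ := by rw [hSI]; exact Ideal.subset_span hf₀S
  have hd₀D : d₀ ∈ D := by rw [hSD]; exact Ideal.subset_span hd₀S
  have hI₁P : ∀ a ∈ Ideal.span S₁, (a : K) / β ∈ P := by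
    intro a ha
    induction ha using Submodule.span_induction with
    | mem a ha =>
      rcases ha with h | ⟨t, ht, h⟩ | ⟨w, hw, h⟩
      · rw [h, div_self hβ0]; exact P.one_mem
      · rw [h, mul_div_assoc, div_self hβ0, mul_one]; exact hTP t ht
      · rw [h, mul_div_assoc, div_self hβ0, mul_one]
        exact hCP _ (Subring.subset_closure (Or.inr hw))
    | zero => simp
    | add a b _ _ ha hb =>
      have h1 : ((a + b : A) : K) / β = (a : K) / β + (b : K) / β := add_div _ _ _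
      rw [h1]
      exact P.add_mem ha hb
    | smul c a _ ha =>
      have h1 : ((c • a : A) : K) / β = (c : K) * ((a : K) / β) := mul_div_assoc _ _ _
      rw [h1]
      exact P.mul_mem (hAP c.2) ha
  have hIIP : ∀ a ∈ I₀ * Ideal.span S₁, (a : K) / ((f₀ : K) * β) ∈ P := by
    intro a ha
    refine Submodule.mul_induction_on ha ?_ ?_
    · intro b hb c hc
      have h3 : ((b * c : A) : K) / ((f₀ : K) * β) = (b : K) / (f₀ : K) * ((c : K) / β) := by
        change (b : K) * (c : K) / ((f₀ : K) * β) = _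
        field_simp
      change ((b * c : A) : K) / ((f₀ : K) * β) ∈ _
      rw [h3]
      exact P.mul_mem (hIP b hb) (hI₁P c hc)
    · intro b c hb hc
      have h3 : ((b + c : A) : K) / ((f₀ : K) * β) = (b : K) / ((f₀ : K) * β) +
          (c : K) / ((f₀ : K) * β) := add_div _ _ _
      rw [h3]
      exact P.add_mem hb hc
  have hPV : P ≤ V.toSubring := lo_le hBV
  let ff : A := f₀ * ⟨β, hβ.1⟩
  have hffc : (ff : K) = (f₀ : K) * β := rfl
  have hff : ff ∈ I₀ * Ideal.span S₁ := Ideal.mul_mem_mul hf₀I (Ideal.subset_span hβS)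
  have hff0 : ff ≠ 0 := fun h => mul_ne_zero hf₀0' hβ0 (congrArg Subtype.val h)
  have hchP : chart A (I₀ * Ideal.span S₁) ff ≤ P := by
    unfold chart
    rw [Subring.closure_le]
    rintro z (hz | ⟨a, ha, rfl⟩)
    · exact hAP hz
    · rw [hffc]
      exact hIIP a ha
  have hmem : ∀ z : K, (h : z * β ∈ A) → (⟨z * β, h⟩ : A) ∈ S₁ →
      z ∈ chart A (I₀ * Ideal.span S₁) ff := by
    intro z h hz
    refine Subring.subset_closure (Or.inr ⟨f₀ * ⟨z * β, h⟩, Ideal.mul_mem_mul hf₀I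
      (Ideal.subset_span hz), ?_⟩)
    rw [hffc]
    change z = (f₀ : K) * (z * β) / ((f₀ : K) * β)
    field_simp
  have hBch : B ≤ chart A (I₀ * Ideal.span S₁) ff := by
    rw [hB, Subring.closure_le]
    rintro z (⟨c, hc, rfl⟩ | hz)
    · have h1 : C ≤ (chart A (I₀ * Ideal.span S₁) ff).comap (algebraMap E K) := by
        rw [hC, Subring.closure_le]
        rintro c (hc | hc)
        · exact Subring.subset_closure (Or.inl (hRA c hc))
        · exact hmem _ (hWβ c hc) (Or.inr (Or.inr ⟨c, hc, rfl⟩))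
      exact h1 hc
    · exact hmem z (hTβ' z hz).1 (Or.inr (Or.inl ⟨z, hz, rfl⟩))
  refine logDesing_of hff hff0 (fun a ha => ?_) hd₀D hd₀0 (P := P) ?_ hreg hDP ?_
  · rw [hffc]
    exact hPV (hIIP a ha)
  · exact lo_eq hBV hBch hchP
  · rw [hffc]
    exact (hZPM _ (Or.inr (Or.inl (Or.inl rfl)))).mul hreg.ne
      ((hZPM _ (Or.inr (Or.inl (Or.inr rfl)))).mul hreg.ne hβ.2.2)


/- The following section and `form_mulSub` are copied from `Pool.Agent.N102.FL.LPts` (helper102). -/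

section mult

variable {E K : Type u} [Field E] [Field K] [Algebra E K] {Θ : Type} [Fintype Θ] {y : Θ → K}

/-- The elements of `K` with a multiple in `A` with a factor in `A` which is a monomial. -/
def mulSub (E : Type u) {K : Type u} [Field E] [Field K] [Algebra E K] {Θ : Type} [Fintype Θ]
    {y : Θ → K} (hy : ∀ θ, y θ ≠ 0) (A : Subring K) : Subring K where
  carrier := {w | ∃ b ∈ A, Mon E y b ∧ b * w ∈ A}
  mul_mem' := by
    rintro u w ⟨b, hb, hb0, hu⟩ ⟨b', hb', hb0', hw⟩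
    refine ⟨b * b', A.mul_mem hb hb', hb0.mul hy hb0', ?_⟩
    have h : b * b' * (u * w) = (b * u) * (b' * w) := by ring
    rw [h]
    exact A.mul_mem hu hw
  one_mem' := ⟨1, A.one_mem, Mon.one, by
    rw [one_mul]
    exact A.one_mem⟩
  add_mem' := by
    rintro u w ⟨b, hb, hb0, hu⟩ ⟨b', hb', hb0', hw⟩
    refine ⟨b * b', A.mul_mem hb hb', hb0.mul hy hb0', ?_⟩
    have h : b * b' * (u + w) = b' * (b * u) + b * (b' * w) := by ring
    rw [h]
    exact A.add_mem (A.mul_mem hb' hu) (A.mul_mem hb hw)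
  zero_mem' := ⟨1, A.one_mem, Mon.one, by
    rw [mul_zero]
    exact A.zero_mem⟩
  neg_mem' := by
    rintro u ⟨b, hb, hb0, hu⟩
    exact ⟨b, hb, hb0, by
      rw [mul_neg]
      exact A.neg_mem hu⟩

lemma const_mulSub (hy : ∀ θ, y θ ≠ 0) {A : Subring K} {R : Subring E}
    (hfr : ∀ w : E, ∃ a ∈ R, ∃ b ∈ R, b ≠ 0 ∧ w = a * b⁻¹)
    (hRA : ∀ r ∈ R, algebraMap E K r ∈ A) (a : E) : algebraMap E K a ∈ mulSub E hy A := by
  obtain ⟨a', ha', b, hb, hb0, rfl⟩ := hfr a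
  refine ⟨algebraMap E K b, hRA b hb, Mon.const hb0, ?_⟩
  rw [← map_mul, mul_comm a', ← mul_assoc, mul_inv_cancel₀ hb0, one_mul]
  exact hRA a' ha'

end mult

section main

open Pool.Agent.TH214.SD

variable {p : ℕ} [Fact p.Prime] {k E K : Type u} [Field k] [PerfectField k] [CharP k p] [Field E]
  [Field K] [Algebra k E] [Algebra k K] [Algebra E K] [IsScalarTower k E K] {h s n q c : ℕ}
  {v : Fin h → E} {e : Fin s → ℕ} {z : Fin s → K} {x : Fin n → K}
  {G : Fin q → (Fin (h + s) ⊕ Fin n → ℤ) →₀ k}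

lemma form_mulSub {Θ : Type} [Fintype Θ] {y : Θ → K} (hy : ∀ θ, y θ ≠ 0) {A : Subring K}
    (hE : ∀ a : E, algebraMap E K a ∈ mulSub E hy A) (hz : ∀ t, z t ∈ mulSub E hy A) {g : K}
    (hg : IsLinearForm k p e z g) : g ∈ mulSub E hy A := by
  obtain ⟨f, hf⟩ := hg
  induction hf using Submodule.span_induction with
  | mem w hw =>
    rcases hw with rfl | ⟨t, -, rfl⟩
    · exact Subring.one_mem _
    · exact Subring.pow_mem _ (hz t) _
  | zero => exact Subring.zero_mem _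
  | add u w _ _ hu hw => exact Subring.add_mem _ hu hw
  | smul a w _ hw =>
    rw [Algebra.smul_def, IsScalarTower.algebraMap_apply k E K]
    exact Subring.mul_mem _ (hE _) hw

/-- Ascent of log uniformization. -/
theorem ascent2 (hsys : S_SYS.{u}) (hcut : S_CUT.{u})
    (hB : IsLeveledSystemOver (E := E) p c v e z x G) (V : ValuationSubring K)
    (hkV : ∀ a : k, algebraMap k K a ∈ V) (R : Subring E) [IsNoetherianRing R]
    (hfr : ∀ w : E, ∃ a ∈ R, ∃ b ∈ R, b ≠ 0 ∧ w = a * b⁻¹)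
    (hRV : ∀ a ∈ R, algebraMap E K a ∈ V) (hLU : LogUnif (V.comap (algebraMap E K)) R)
    (A : Subring K) (M : Set K) (hM : M.Finite)
    (hMm : ∀ w ∈ M, ∃ u ∈ monomials k E p e z x, (u : K) = w)
    (hA : A = Subring.closure ((R.map (algebraMap E K) : Set K) ∪ M)) (hAV : A ≤ V.toSubring)
    (hzA : ∀ t, ∃ b ∈ A, (∃ u ∈ monomials k E p e z x, (u : K) = b) ∧ b * z t ∈ A)
    (hxA : ∀ j, ∃ b ∈ A, (∃ u ∈ monomials k E p e z x, (u : K) = b) ∧ b * x j ∈ A)
    (D I₀ : Ideal A) (hD : MIdeal k E p e z x D) (hI₀ : MIdeal k E p e z x I₀) :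
    ∃ I₁ : Ideal A, MIdeal k E p e z x I₁ ∧ LogDesing V A D (I₀ * I₁) := by
  classical
  obtain ⟨hD0, SD, hSD1, hSD2, hSD3⟩ := hD
  obtain ⟨hI0, SI, hSI1, hSI2, hSI3⟩ := hI₀
  choose bz hbz1 hbz2 hbz3 using hzA
  choose bx hbx1 hbx2 hbx3 using hxA
  obtain ⟨b, g, hg0, hg, hcov⟩ := exists_cov (k := k) (E := E) (p := p) (e := e) (z := z)
    (x := x) (S := (M ∪ {w | w ≠ 0 ∧ ∃ a ∈ SD ∪ SI, (a : K) = w}) ∪
      (Set.range bz ∪ Set.range bx))
    ((hM.union (((hSD1.union hSI1).image (fun a : A => (a : K))).subset (by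
      rintro w ⟨-, a, ha, rfl⟩
      exact ⟨a, ha, rfl⟩))).union ((Set.finite_range bz).union (Set.finite_range bx))) (by
      rintro w ((hw | ⟨hw0, a, ha | ha, rfl⟩) | ⟨t, rfl⟩ | ⟨j, rfl⟩)
      · exact hMm w hw
      · exact hSD2 a ha hw0
      · exact hSI2 a ha hw0
      · exact hbz2 t
      · exact hbx2 j)
  obtain ⟨Θ, _, y, 𝒮, hy, hgen, hok, hc0, htr, hyf, hyx, hyg⟩ :=
    exists_system hsys hB V hkV b g hg0 hg
  have hcov' := hcov Θ y hy hyx hyg
  have hRA : ∀ a ∈ R, algebraMap E K a ∈ A := by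
    intro a ha
    rw [hA]
    exact Subring.subset_closure (Or.inl ⟨a, ha, rfl⟩)
  have hEm : ∀ a : E, algebraMap E K a ∈ mulSub E hy A := const_mulSub hy hfr hRA
  have hzm : ∀ t, z t ∈ mulSub E hy A := fun t =>
    ⟨bz t, hbz1 t, hcov' _ (Or.inr (Or.inl ⟨t, rfl⟩)), hbz3 t⟩
  have hxm : ∀ j, x j ∈ mulSub E hy A := fun j =>
    ⟨bx j, hbx1 j, hcov' _ (Or.inr (Or.inr ⟨j, rfl⟩)), hbx3 j⟩
  have hym : ∀ θ, y θ ∈ mulSub E hy A := by
    intro θ
    rcases hyf θ with ⟨j, hj⟩ | hl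
    · rw [hj]
      exact hxm j
    · exact form_mulSub hy hEm hzm hl
  obtain ⟨I₁, ⟨h1, S1, h2, h3, h4⟩, h5⟩ := asc2 hcut V R hfr hRV hLU hy hgen 𝒮 hok hc0 htr
    A M hM (fun w hw => hcov' w (Or.inl (Or.inl hw))) hA hAV hym D I₀
    ⟨hD0, SD, hSD1, fun a ha ha0 => hcov' _ (Or.inl (Or.inr ⟨ha0, a, Or.inl ha, rfl⟩)), hSD3⟩
    ⟨hI0, SI, hSI1, fun a ha ha0 => hcov' _ (Or.inl (Or.inr ⟨ha0, a, Or.inr ha, rfl⟩)), hSI3⟩
  exact ⟨I₁, ⟨h1, S1, h2, fun a ha ha0 => monomial_of_mon hy hyf (h3 a ha ha0), h4⟩, h5⟩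

end main

end Run7.h277.FL
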