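import Pool.Agent.N102.FL.Final
import Pool.Agent.N102.FL.LSys
import Pool.Agent.N762.FP.Cls
import Pool.Agent.N531.FL.Sat

/-!
Coverings of leveled systems over products of surfaces: the linear forms in the roots of the powers
`z t ^ (p ^ e t)` can be added to the boundary functions.
-/

set_option autoImplicit false
set_option linter.unusedVariables false
set_option linter.unusedSectionVars false

universe u

open Pool.Agent.TH188.VT Pool.Agent.TH214.SD Pool.Agent.TH214.V Pool.Agent.TH188.WP
  Pool.Agent.N102.FL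

namespace Run7.h277.FL

section emb

/-- The embedding of the variables. -/
def jL (h s b : ℕ) : Fin (h + s) ↪ Fin (h + (s + b)) :=
  ⟨fun i => Fin.cast (Nat.add_assoc h s b) (Fin.castAdd b i), fun i j hij => by
    simpa [Fin.ext_iff] using hij⟩

def jJ (h s b n : ℕ) : (Fin (h + s) ⊕ Fin n) ↪ (Fin (h + (s + b)) ⊕ Fin n) :=
  (jL h s b).sumMap (Function.Embedding.refl (Fin n))

lemma append_jL {K : Type u} {h s b : ℕ} (u : Fin h → K) (z : Fin s → K) (g : Fin b → K)
    (i : Fin (h + s)) : Fin.append u (Fin.append z g) (jL h s b i) = Fin.append u z i := by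
  have h1 := congrFun (Fin.append_assoc u z g) (Fin.castAdd b i)
  rw [Fin.append_left] at h1
  exact h1.symm

lemma elim_jJ {K : Type u} {h s b n : ℕ} (u : Fin h → K) (z : Fin s → K) (g : Fin b → K)
    (x : Fin n → K) (i : Fin (h + s) ⊕ Fin n) :
    Sum.elim (Fin.append u (Fin.append z g)) x (jJ h s b n i) = Sum.elim (Fin.append u z) x i := by
  rcases i with i | j
  · exact append_jL u z g i
  · rfl

end emb

section poly

variable {k : Type u} [Field k] {h s b n q a : ℕ}

lemma value_ext {K : Type u} [Field K] [Algebra k K] (F : (Fin (h + s) ⊕ Fin n → ℤ) →₀ k)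
    (u : Fin h → K) (z : Fin s → K) (g : Fin b → K) (x : Fin n → K) :
    value (exF (jJ h s b n) F) (Fin.append u (Fin.append z g)) x = value F (Fin.append u z) x := by
  change Pool.Agent.TH214.V.lv (exF (jJ h s b n) F) (Sum.elim (Fin.append u (Fin.append z g)) x) = _
  rw [exF_lv]
  have h1 : (fun i => Sum.elim (Fin.append u (Fin.append z g)) x (jJ h s b n i)) =
      Sum.elim (Fin.append u z) x := funext fun i => elim_jJ u z g x i
  rw [h1]
  rfl

lemma initialValue_ext (F : (Fin (h + s) ⊕ Fin n → ℤ) →₀ k)
    (l : Fin (h + (s + b)) ⊕ Fin n → ℤ) (ζ : Fin (h + (s + b)) ⊕ Fin n → AlgebraicClosure k) :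
    initialValue (exF (jJ h s b n) F) l ζ =
      initialValue F (fun i => l (jJ h s b n i)) (fun i => ζ (jJ h s b n i)) :=
  exF_vl (jJ h s b n) F l ζ

lemma initialGradient_ext (F : (Fin (h + s) ⊕ Fin n → ℤ) →₀ k)
    (l : Fin (h + (s + b)) ⊕ Fin n → ℤ) (ζ : Fin (h + (s + b)) ⊕ Fin n → AlgebraicClosure k) :
    initialGradient (exF (jJ h s b n) F) l ζ =
      initialGradient F (fun i => l (jJ h s b n i)) (fun i => ζ (jJ h s b n i)) := by
  funext j
  exact gv_ex_of (jJ h s b n) (Function.Embedding.inr : Fin n ↪ _) Function.Embedding.inr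
    (Function.Embedding.refl (Fin n)) (fun _ => rfl) F l ζ j

lemma schon_ext {G : Fin q → (Fin (h + s) ⊕ Fin n → ℤ) →₀ k} {c : ℕ} (hG : SchonEquations G c) :
    SchonEquations (fun i => exF (jJ h s b n) (G i)) c := by
  intro l ζ hζ hv
  have h1 : (fun i => initialGradient (exF (jJ h s b n) (G i)) l ζ) = fun i =>
      initialGradient (G i) (fun j => l (jJ h s b n j)) (fun j => ζ (jJ h s b n j)) :=
    funext fun i => initialGradient_ext (G i) l ζ
  show c ≤ Module.finrank (AlgebraicClosure k) (Submodule.span (AlgebraicClosure k)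
    (Set.range fun i => initialGradient (exF (jJ h s b n) (G i)) l ζ))
  rw [h1]
  exact hG (fun j => l (jJ h s b n j)) (fun j => ζ (jJ h s b n j)) (fun j => hζ _)
    (fun i => (initialValue_ext (G i) l ζ).symm.trans (hv i))

lemma nondegenerate_ext {G : Fin q → (Fin (h + s) ⊕ Fin n → ℤ) →₀ k}
    {F : Fin a → (Fin (h + s) ⊕ Fin n → ℤ) →₀ k} (hF : StronglyNondegenerateOn G F) :
    StronglyNondegenerateOn (fun i => exF (jJ h s b n) (G i))
      (fun t => exF (jJ h s b n) (F t)) := by
  intro l ζ hζ hv t
  simp only [initialGradient_ext]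
  refine hF _ _ (fun j => hζ _) (fun i => ?_) t
  rw [← initialValue_ext]
  exact hv i

end poly

section main

variable {p : ℕ} [Fact p.Prime] {k K : Type u} [Field k] [PerfectField k] [CharP k p] [Field K]
  [Algebra k K] {m h s n q r o a c : ℕ} {E : Fin m → IntermediateField k K}
  {u : Fin h → K} {e : Fin s → ℕ} {z : Fin s → K} {x : Fin n → K}
  {G : Fin q → (Fin (h + s) ⊕ Fin n → ℤ) →₀ k} {f : ∀ i, E i} {g : Fin o → ∀ i, E i}
  {F : Fin a → (Fin (h + s) ⊕ Fin n → ℤ) →₀ k} {w : Fin r → K}

lemma span_ext {b : ℕ} (γ : Fin b → K) (φ : Fin b → ℕ)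
    (hγ : ∀ i, γ i ∈ Submodule.span k
      (insert (1 : K) {w | ∃ t, φ i ≤ e t ∧ w = z t ^ p ^ (e t - φ i)})) :
    Submodule.span k (insert (1 : K) (Set.range fun t =>
      Fin.append z γ t ^ p ^ Fin.append e φ t)) =
    Submodule.span k (insert (1 : K) (Set.range fun t => z t ^ p ^ e t)) := by
  have hp : p.Prime := Fact.out
  have : ExpChar k p := ExpChar.prime hp
  have : PerfectRing k p := PerfectField.toPerfectRing p
  apply le_antisymm
  · rw [Submodule.span_le]
    rintro w (rfl | ⟨t, rfl⟩)
    · exact Submodule.subset_span (Or.inl rfl)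
    · induction t using Fin.addCases with
      | left t =>
        simp only [Fin.append_left]
        exact Submodule.subset_span (Or.inr ⟨t, rfl⟩)
      | right i =>
        simp only [Fin.append_right]
        refine Submodule.span_mono ?_ (pow_mem_of_form (hγ i))
        refine Set.insert_subset_insert ?_
        rintro w ⟨t, -, rfl⟩
        exact ⟨t, rfl⟩
  · refine Submodule.span_mono (Set.insert_subset_insert ?_)
    rintro w ⟨t, rfl⟩
    refine ⟨Fin.castAdd b t, ?_⟩
    simp only [Fin.append_left]

theorem leveled_ext {b : ℕ} (γ : Fin b → K) (φ : Fin b → ℕ) (h0 : ∀ i, γ i ≠ 0)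
    (hγ : ∀ i, γ i ∈ Submodule.span k
      (insert (1 : K) {w | ∃ t, φ i ≤ e t ∧ w = z t ^ p ^ (e t - φ i)}))
    (hB : IsLeveledSystem E p c u e z x G) :
    IsLeveledSystem E p c u (Fin.append e φ) (Fin.append z γ) x
      (fun i => exF (jJ h s b n) (G i)) where
  surfaces := hB.surfaces
  products := hB.products
  ne_zero := by
    refine ⟨fun t => ?_, hB.ne_zero.2⟩
    induction t using Fin.addCases with
    | left t => rw [Fin.append_left]; exact hB.ne_zero.1 t
    | right i => rw [Fin.append_right]; exact h0 i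
  equations := fun i => by rw [value_ext]; exact hB.equations i
  schon := schon_ext hB.schon
  dimension := by
    rw [span_ext γ φ hγ]
    exact hB.dimension

theorem generated_ext {b : ℕ} (γ : Fin b → K) (hC : IsGeneratedBy E p u z x G f g F w) :
    IsGeneratedBy E p u (Fin.append z γ) x (fun i => exF (jJ h s b n) (G i)) f g
      (fun t => exF (jJ h s b n) (F t)) w where
  nondegenerate := nondegenerate_ext hC.nondegenerate
  roots := by
    simp only [value_ext]
    exact hC.roots
  generate := by
    rw [eq_top_iff, ← hC.generate]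
    refine IntermediateField.adjoin.mono k _ _ ?_
    refine Set.union_subset_union le_rfl (Set.union_subset_union (Set.union_subset_union ?_ le_rfl)
      le_rfl)
    rintro w ⟨t, rfl⟩
    exact ⟨Fin.castAdd b t, Fin.append_left _ _ _⟩

/-- All these covers have models on which finite families of products of elements of the `E i`, of
powers of the `z t` and `x j`, and of linear forms in roots of the powers `z t ^ (p ^ e t)` are
boundary functions. -/
theorem mod_leveled (hB : IsLeveledSystem E p c u e z x G)
    (hC : IsGeneratedBy E p u z x G f g F w) :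
    Pool.Agent.N762.FP.Mod k
      ({y | IsProduct E (Fin.append z x) y} ∪ {y | IsLinearForm k p e z y}) := by
  classical
  have hp : p.Prime := Fact.out
  intro B _ v hv hv0
  have := Fintype.ofFinite B
  let b := Fintype.card B
  let ε : B ≃ Fin b := Fintype.equivFin B
  let γ : Fin b → K := fun i => if IsLinearForm k p e z (v (ε.symm i)) then v (ε.symm i) else 1
  have hγ0 : ∀ i, γ i ≠ 0 := by
    intro i
    by_cases h1 : IsLinearForm k p e z (v (ε.symm i))
    · simp only [γ, if_pos h1]; exact hv0 _
    · simp only [γ, if_neg h1]; exact one_ne_zero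
  have hγ : ∀ i, ∃ φ : ℕ, γ i ∈ Submodule.span k
      (insert (1 : K) {w | ∃ t, φ ≤ e t ∧ w = z t ^ p ^ (e t - φ)}) := by
    intro i
    by_cases h1 : IsLinearForm k p e z (v (ε.symm i))
    · simp only [γ, if_pos h1]; exact h1
    · simp only [γ, if_neg h1]; exact ⟨0, Submodule.subset_span (Or.inl rfl)⟩
  choose φ hφ using hγ
  have hB' := leveled_ext γ φ hγ0 hφ hB
  have hC' := generated_ext (b := b) γ hC
  have hv' : ∀ i, IsProduct E (Fin.append (Fin.append z γ) x) (v i) := by
    intro i
    by_cases h1 : IsLinearForm k p e z (v i)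
    · let j0 : Fin (s + b + n) := Fin.castAdd n (Fin.natAdd s (ε i))
      have hj0 : Fin.append (Fin.append z γ) x j0 = v i := by
        simp only [j0, Fin.append_left, Fin.append_right, γ, Equiv.symm_apply_apply, if_pos h1]
      refine ⟨fun _ => 1, Pi.single j0 1, fun _ => one_ne_zero, ?_⟩
      rw [Finset.prod_eq_single j0]
      · simp [hj0]
      · intro j _ hj
        rw [Pi.single_eq_of_ne hj, zpow_zero]
      · intro hj
        exact absurd (Finset.mem_univ _) hj
    · rcases hv i with h2 | h2
      · obtain ⟨v', e', h3, h4⟩ := h2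
        refine ⟨v', Fin.append (Fin.append (fun t => e' (Fin.castAdd n t)) (fun _ : Fin b => 0))
          (fun j => e' (Fin.natAdd s j)), h3, ?_⟩
        rw [h4]
        congr 1
        rw [Fin.prod_univ_add, Fin.prod_univ_add, Fin.prod_univ_add]
        simp only [Fin.append_left, Fin.append_right, zpow_zero, Finset.prod_const_one, mul_one]
      · exact absurd h2 h1
  have hrk : S_RANK.{u} := Pool.Agent.N456.FL.t_rank Pool.Agent.N40.FL.t_piv
    Pool.Agent.N40.FL.t_ech Pool.Agent.N954.FL.t_lift Pool.Agent.N56.FL.t_span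
  obtain ⟨T, I, hT, hI, M, Γ, hF, hR⟩ := models Pool.Agent.N531.FL.t_sat hrk
    Pool.Agent.N102.FL.t_form Pool.Agent.N40.FL.t_fam Pool.Agent.N40.FL.t_dim hB' hC' B v hv'
  exact ⟨T, I, hT, hI, M, hR, fun i => Pool.Agent.N98.IsB.br ⟨Γ i, fun t => hF i t⟩⟩

end main

end Run7.h277.FL
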